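import Pool.Agent.Y782.UG.Stm

set_option autoImplicit false

/-! Project UG, task UG-FS: finitely many energies carry small blocks (helper331). -/

open MeasureTheory ProbabilityTheory Filter Topology
open scoped ENNReal BigOperators
open Polynomial

namespace Pool.Agent.Y331.UG

open Pool.Agent.Y782.UG

/-- adding a child with pair `q` to a root with pair `p` -/
noncomputable def stp (p q : ℝ[X] × ℝ[X]) : ℝ[X] × ℝ[X] :=
  (p.1 * q.1 - q.2 * p.2, p.2 * q.1)

/-- roots with `k` children from `E` -/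
noncomputable def W (E : Set (ℝ[X] × ℝ[X])) : ℕ → Set (ℝ[X] × ℝ[X])
  | 0 => {(X, 1)}
  | k + 1 => Set.image2 stp (W E k) E

/-- the pairs of clusters of depth at most `n` -/
noncomputable def EE (Δ : ℕ) : ℕ → Set (ℝ[X] × ℝ[X])
  | 0 => ∅
  | n + 1 => ⋃ k ∈ Set.Iic Δ, W (EE Δ n) k

lemma W_finite {E : Set (ℝ[X] × ℝ[X])} (hE : E.Finite) : ∀ k, (W E k).Finite
  | 0 => Set.finite_singleton _
  | k + 1 => (W_finite hE k).image2 _ hE

lemma EE_finite (Δ : ℕ) : ∀ n, (EE Δ n).Finite
  | 0 => Set.finite_empty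
  | n + 1 => (Set.finite_Iic Δ).biUnion fun k _ => W_finite (EE_finite Δ n) k

def Good (p : ℝ[X] × ℝ[X]) : Prop := p.1.Monic ∧ p.2.natDegree < p.1.natDegree

lemma good_stp {p q : ℝ[X] × ℝ[X]} (hp : Good p) (hq : Good q) : Good (stp p q) := by
  obtain ⟨h1, h2⟩ := hp
  obtain ⟨h3, h4⟩ := hq
  have hm : (p.1 * q.1).Monic := h1.mul h3
  have hd : (p.1 * q.1).natDegree = p.1.natDegree + q.1.natDegree := h1.natDegree_mul h3
  have hs : (q.2 * p.2).natDegree < (p.1 * q.1).natDegree := by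
    have := natDegree_mul_le (p := q.2) (q := p.2)
    omega
  have hdeg : (q.2 * p.2).degree < (p.1 * q.1).degree := degree_lt_degree hs
  have hm2 : (p.1 * q.1 - q.2 * p.2).Monic := hm.sub_of_left hdeg
  have hd2 : (p.1 * q.1 - q.2 * p.2).natDegree = (p.1 * q.1).natDegree :=
    natDegree_sub_eq_left_of_natDegree_lt hs
  refine ⟨hm2, ?_⟩
  show (p.2 * q.1).natDegree < (p.1 * q.1 - q.2 * p.2).natDegree
  have := natDegree_mul_le (p := p.2) (q := q.1)
  omega

lemma W_good {E : Set (ℝ[X] × ℝ[X])} (hE : ∀ p ∈ E, Good p) : ∀ k, ∀ p ∈ W E k, Good p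
  | 0, p, hp => by
    have : p = (X, 1) := hp
    rw [this]
    exact ⟨monic_X, by simp⟩
  | k + 1, p, hp => by
    obtain ⟨a, ha, b, hb, rfl⟩ := hp
    exact good_stp (W_good hE k a ha) (hE b hb)

lemma EE_good (Δ : ℕ) : ∀ n, ∀ p ∈ EE Δ n, Good p
  | 0, p, hp => (Set.notMem_empty p hp).elim
  | n + 1, p, hp => by
    simp only [EE, Set.mem_iUnion] at hp
    obtain ⟨k, _, hk⟩ := hp
    exact W_good (EE_good Δ n) k p hk

section typ

variable {Δ : ℕ} {lam : ℝ} {m r D : Tr Δ → ℝ} {F : Set (Tr Δ)}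

lemma child_facts (h : Typ Δ lam m r D F) {v : Tr Δ} (hv : r v ≠ 0) :
    (∀ i < nch v, sub v i ∈ F) ∧ lam + ∑ i ∈ Finset.range (nch v), r (sub v i) ≠ 0 ∧
      r v = -1 / (lam + ∑ i ∈ Finset.range (nch v), r (sub v i)) := by
  have hF : v ∈ F := by
    by_contra hcon
    exact hv (h.Fr v hcon)
  have hm : ∀ i < nch v, m (sub v i) = 0 := by
    intro i hi
    by_contra hcon
    have hpos : 0 < m (sub v i) := lt_of_le_of_ne (h.m0 _) (Ne.symm hcon)
    exact hv (h.rc v ⟨i, hi, hpos⟩).2.1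
  have hall : ∀ i < nch v, sub v i ∈ F := by
    by_contra hcon
    push Not at hcon
    obtain ⟨i, hi, hni⟩ := hcon
    exact (h.rd v hm ⟨i, hi, hni⟩).1 hF
  have hne : lam + ∑ i ∈ Finset.range (nch v), r (sub v i) ≠ 0 := by
    intro h0
    have h1 := h.ra v hall h0
    have h2 : 0 ≤ ∑ i ∈ Finset.range (nch v), D (sub v i) :=
      Finset.sum_nonneg fun i hi => (h.FD _ (hall i (Finset.mem_range.mp hi))).le
    have h3 : 0 < m v := by rw [h1]; positivity
    rw [h.Fm v hF] at h3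
    exact lt_irrefl _ h3
  exact ⟨hall, hne, (h.rb v hall hne).2.1⟩

open Classical in
lemma sz_child (r : Tr Δ → ℝ) {u : Tr Δ} {i : ℕ} (hi : i < nch u) (hr : r (sub u i) ≠ 0) (N : ℕ) :
    sz r N (sub u i) + 1 ≤ sz r (N + 1) u := by
  rw [sz, add_comm]
  have h1 := Finset.single_le_sum (f := fun i => if r (sub u i) ≠ 0 then sz r N (sub u i) else 0)
    (fun _ _ => bot_le) (Finset.mem_range.mpr hi)
  simp only [if_pos hr] at h1
  exact add_le_add le_rfl h1

lemma cluster (h : Typ Δ lam m r D F) : ∀ (n : ℕ) (u : Tr Δ), (∀ i < nch u, sub u i ∈ F) →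
    (∀ N, sz r N u ≤ (n : ℕ∞)) →
    ∃ p ∈ EE Δ n, p.2.eval lam ≠ 0 ∧
      lam + ∑ i ∈ Finset.range (nch u), r (sub u i) = p.1.eval lam / p.2.eval lam := by
  intro n
  induction n with
  | zero =>
    intro u _ hs
    exfalso
    have h1 := hs 1
    rw [sz] at h1
    have h2 : (1 : ℕ∞) ≤ ((0 : ℕ) : ℕ∞) := le_trans le_self_add h1
    exact absurd h2 (by simp)
  | succ n ih =>
    intro u hu hs
    have key : ∀ k ≤ nch u, ∃ c ≤ k, ∃ p ∈ W (EE Δ n) c, p.2.eval lam ≠ 0 ∧
        lam + ∑ i ∈ Finset.range k, r (sub u i) = p.1.eval lam / p.2.eval lam := by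
      intro k
      induction k with
      | zero =>
        intro _
        refine ⟨0, le_rfl, (X, 1), rfl, ?_, ?_⟩ <;> simp
      | succ k ihk =>
        intro hk
        obtain ⟨c, hc, p, hp, hp2, hp3⟩ := ihk (by omega)
        by_cases hr : r (sub u k) = 0
        · refine ⟨c, by omega, p, hp, hp2, ?_⟩
          rw [Finset.sum_range_succ, hr, add_zero]
          exact hp3
        · obtain ⟨h1, h2, h3⟩ := child_facts h hr
          have h4 : ∀ N, sz r N (sub u k) ≤ (n : ℕ∞) := by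
            intro N
            have h5 := (sz_child r (u := u) (i := k) (by omega) hr N).trans (hs (N + 1))
            rw [Nat.cast_add, Nat.cast_one] at h5
            exact (ENat.add_le_add_iff_right (by simp)).mp h5
          obtain ⟨q, hq, hq2, hq3⟩ := ih (sub u k) h1 h4
          have hq1 : q.1.eval lam ≠ 0 := by
            intro h0
            rw [h0, zero_div] at hq3
            exact h2 hq3
          refine ⟨c + 1, by omega, stp p q, ⟨p, hp, q, hq, rfl⟩, ?_, ?_⟩
          · simp only [stp, eval_mul]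
            exact mul_ne_zero hp2 hq1
          · rw [Finset.sum_range_succ, ← add_assoc, hp3, h3, hq3]
            simp only [stp, eval_mul, eval_sub]
            field_simp
            ring
    obtain ⟨c, hc, p, hp, hp2, hp3⟩ := key (nch u) le_rfl
    have hΔ : nch u ≤ Δ := Nat.lt_succ_iff.mp (u []).isLt
    refine ⟨p, ?_, hp2, hp3⟩
    simp only [EE, Set.mem_iUnion]
    exact ⟨c, hc.trans hΔ, hp⟩

end typ

/-- UG-FS -/
theorem fs : S_FS := by
  intro Δ n
  have hfin : (⋃ p ∈ EE Δ n, {lam : ℝ | p.1.IsRoot lam}).Finite := by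
    refine (EE_finite Δ n).biUnion fun p hp => ?_
    exact finite_setOfPred_isRoot (EE_good Δ n p hp).1.ne_zero
  refine hfin.subset ?_
  rintro lam ⟨m, r, D, F, h, t, ⟨ht1, ht2⟩, hts⟩
  obtain ⟨p, hp, hp2, hp3⟩ := cluster h n t ht1 (fun N => (le_iSup (fun n => sz r n t) N).trans hts)
  simp only [Set.mem_iUnion]
  refine ⟨p, hp, ?_⟩
  rw [ht2] at hp3
  have h1 := hp3.symm
  rw [div_eq_zero_iff] at h1
  exact h1.resolve_right hp2

end Pool.Agent.Y331.UG
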