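import Pool.Agent.Y782.UG.Stm

set_option autoImplicit false

open Filter Topology
open scoped ENNReal BigOperators

namespace Pool.Agent.Y331.UG

open Pool.Agent.Y782.UG
open Classical

theorem vx_snoc (n : List ℕ → ℕ) (w : List ℕ) (a : ℕ) :
    vx n (w ++ [a]) ↔ vx n w ∧ a < n w := by
  constructor
  · intro h
    refine ⟨fun j hj => ?_, ?_⟩
    · have h1 := h j (by simp; omega)
      rwa [List.getD_append _ _ _ _ hj, List.take_append_of_le_length hj.le] at h1
    · have h1 := h w.length (by simp)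
      simpa using h1
  · rintro ⟨h1, h2⟩ j hj
    rw [List.length_append, List.length_singleton] at hj
    rcases Nat.lt_succ_iff_lt_or_eq.1 hj with h3 | h3
    · rw [List.getD_append _ _ _ _ h3, List.take_append_of_le_length h3.le]
      exact h1 j h3
    · subst h3
      simpa using h2

/-- the raw downward operator -/
noncomputable def cf {Δ : ℕ} (t : Tr Δ) (f : List ℕ → ℂ) (w : List ℕ) : ℂ :=
  if w ≠ [] ∧ vx (off t) w then f w.dropLast else 0

theorem two_toReal : (2 : ℝ≥0∞).toReal = 2 := by simp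

theorem cf_sum {Δ : ℕ} (t : Tr Δ) (f : H2) (S : Finset (List ℕ)) :
    ∑ w ∈ S, ‖cf t f w‖ ^ (2 : ℝ≥0∞).toReal ≤ ((Δ + 1 : ℝ) * ‖f‖) ^ (2 : ℝ≥0∞).toReal := by
  have hp : 0 < (2 : ℝ≥0∞).toReal := by rw [two_toReal]; norm_num
  set S' := S.filter (fun w => w ≠ [] ∧ vx (off t) w) with hS'
  have h1 : ∑ w ∈ S, ‖cf t f w‖ ^ (2 : ℝ≥0∞).toReal
      = ∑ w ∈ S', ‖f w.dropLast‖ ^ (2 : ℝ≥0∞).toReal := by
    rw [hS', Finset.sum_filter]
    refine Finset.sum_congr rfl fun w _ => ?_
    unfold cf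
    split_ifs with h
    · rfl
    · rw [norm_zero, Real.zero_rpow hp.ne']
  rw [h1, Finset.sum_comp (fun v => ‖f v‖ ^ (2 : ℝ≥0∞).toReal) List.dropLast]
  have h2 : ∀ v ∈ S'.image List.dropLast,
      (S'.filter (fun w => w.dropLast = v)).card • ‖f v‖ ^ (2 : ℝ≥0∞).toReal
        ≤ (Δ + 1 : ℝ) * ‖f v‖ ^ (2 : ℝ≥0∞).toReal := by
    intro v _
    rw [nsmul_eq_mul]
    refine mul_le_mul_of_nonneg_right ?_ (Real.rpow_nonneg (norm_nonneg _) _)
    have h3 : (S'.filter (fun w => w.dropLast = v)).card ≤ (Finset.range (Δ + 1)).card := by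
      refine Finset.card_le_card_of_injOn (fun w => w.getLastD 0) ?_ ?_
      · intro w hw
        have hw' : (w ≠ [] ∧ vx (off t) w) ∧ w.dropLast = v := by
          have := Finset.mem_filter.1 (Finset.mem_coe.1 hw)
          exact ⟨(Finset.mem_filter.1 this.1).2, this.2⟩
        obtain ⟨⟨h4, h5⟩, h6⟩ := hw'
        obtain ⟨u, b, rfl⟩ : ∃ u b, w = u ++ [b] := ⟨w.dropLast, w.getLast h4,
          (List.dropLast_append_getLast h4).symm⟩
        have h7 := ((vx_snoc _ _ _).1 h5).2
        have h8 : off t u < Δ + 1 := (t u).isLt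
        simp only [Finset.coe_range, Set.mem_Iio]
        rw [List.getLastD_concat]
        omega
      · intro w hw w' hw' hh
        have hw1 : (w ≠ [] ∧ vx (off t) w) ∧ w.dropLast = v := by
          have := Finset.mem_filter.1 (Finset.mem_coe.1 hw)
          exact ⟨(Finset.mem_filter.1 this.1).2, this.2⟩
        have hw2 : (w' ≠ [] ∧ vx (off t) w') ∧ w'.dropLast = v := by
          have := Finset.mem_filter.1 (Finset.mem_coe.1 hw')
          exact ⟨(Finset.mem_filter.1 this.1).2, this.2⟩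
        obtain ⟨⟨h4, -⟩, h6⟩ := hw1
        obtain ⟨⟨h4', -⟩, h6'⟩ := hw2
        obtain ⟨u, b, rfl⟩ : ∃ u b, w = u ++ [b] := ⟨w.dropLast, w.getLast h4,
          (List.dropLast_append_getLast h4).symm⟩
        obtain ⟨u', b', rfl⟩ : ∃ u b, w' = u ++ [b] := ⟨w'.dropLast, w'.getLast h4',
          (List.dropLast_append_getLast h4').symm⟩
        simp only [List.getLastD_concat] at hh
        rw [List.dropLast_concat] at h6 h6'
        rw [h6, h6', hh]
    rw [Finset.card_range] at h3
    exact_mod_cast h3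
  refine (Finset.sum_le_sum h2).trans ?_
  rw [← Finset.mul_sum]
  have h4 := lp.sum_rpow_le_norm_rpow hp f (S'.image List.dropLast)
  have h5 : (Δ + 1 : ℝ) * ∑ i ∈ S'.image List.dropLast, ‖f i‖ ^ (2 : ℝ≥0∞).toReal
      ≤ (Δ + 1 : ℝ) * ‖f‖ ^ (2 : ℝ≥0∞).toReal :=
    mul_le_mul_of_nonneg_left h4 (by positivity)
  refine h5.trans ?_
  rw [two_toReal, Real.rpow_two, Real.rpow_two, mul_pow]
  refine mul_le_mul_of_nonneg_right ?_ (sq_nonneg _)
  have h6 : (1 : ℝ) ≤ (Δ : ℝ) + 1 := by
    have : (0 : ℝ) ≤ (Δ : ℝ) := Nat.cast_nonneg _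
    linarith
  nlinarith

theorem cf_mem {Δ : ℕ} (t : Tr Δ) (f : H2) : Memℓp (cf t f) 2 := by
  refine memℓp_gen' (C := ((Δ + 1 : ℝ) * ‖f‖) ^ (2 : ℝ≥0∞).toReal) ?_
  intro s
  exact cf_sum t f s

/-- the downward operator as a linear map -/
noncomputable def Cl {Δ : ℕ} (t : Tr Δ) : H2 →ₗ[ℂ] H2 where
  toFun f := ⟨cf t f, cf_mem t f⟩
  map_add' f g := by
    ext w
    show cf t (f + g : H2) w = cf t f w + cf t g w
    unfold cf
    split_ifs
    · simp [lp.coeFn_add]
    · simp
  map_smul' c f := by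
    ext w
    show cf t (c • f : H2) w = c • cf t f w
    unfold cf
    split_ifs
    · simp [lp.coeFn_smul]
    · simp

theorem Cl_apply {Δ : ℕ} (t : Tr Δ) (f : H2) (w : List ℕ) : (Cl t f) w = cf t f w := rfl

theorem Cl_bound {Δ : ℕ} (t : Tr Δ) (f : H2) : ‖Cl t f‖ ≤ (Δ + 1 : ℝ) * ‖f‖ := by
  have hp : 0 < (2 : ℝ≥0∞).toReal := by rw [two_toReal]; norm_num
  refine lp.norm_le_of_forall_sum_le hp (by positivity) ?_
  intro s
  exact cf_sum t f s

/-- the downward operator -/
noncomputable def Cc {Δ : ℕ} (t : Tr Δ) : H2 →L[ℂ] H2 :=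
  (Cl t).mkContinuous (Δ + 1 : ℝ) (Cl_bound t)

theorem Cc_apply {Δ : ℕ} (t : Tr Δ) (f : H2) (w : List ℕ) : (Cc t f) w = cf t f w := rfl

theorem Cc_norm {Δ : ℕ} (t : Tr Δ) : ‖Cc t‖ ≤ (Δ + 1 : ℝ) :=
  LinearMap.mkContinuous_norm_le _ (by positivity) _

/-- unit vector -/
noncomputable def ev (w : List ℕ) : H2 := lp.single 2 w (1 : ℂ)

theorem ev_apply (w u : List ℕ) : (ev w) u = if u = w then 1 else 0 := by
  unfold ev
  by_cases h : u = w
  · subst h
    rw [if_pos rfl]
    exact lp.single_apply_self (E := fun _ : List ℕ => ℂ) 2 u (1 : ℂ)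
  · rw [if_neg h]
    exact lp.single_apply_ne (E := fun _ : List ℕ => ℂ) 2 w (1 : ℂ) h

theorem inner_ev (w : List ℕ) (f : H2) : inner ℂ (ev w) f = f w := by
  unfold ev
  rw [lp.inner_single_left]
  simp

theorem Cc_ev {Δ : ℕ} (t : Tr Δ) (w : List ℕ) :
    Cc t (ev w) = if vx (off t) w then ∑ a ∈ Finset.range (off t w), ev (w ++ [a]) else 0 := by
  ext u
  rw [Cc_apply]
  unfold cf
  have hz : (if vx (off t) w then ∑ a ∈ Finset.range (off t w), ev (w ++ [a]) else 0 : H2) u
      = if vx (off t) w then ∑ a ∈ Finset.range (off t w), (if u = w ++ [a] then (1 : ℂ) else 0)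
        else 0 := by
    split_ifs
    · rw [lp.coeFn_sum, Finset.sum_apply]
      refine Finset.sum_congr rfl fun a _ => ?_
      rw [ev_apply]
    · rfl
  rw [hz, ev_apply]
  rcases List.eq_nil_or_concat u with rfl | ⟨v, b, rfl⟩
  · simp
  · rw [List.concat_eq_append, List.dropLast_concat, vx_snoc]
    by_cases hv : v = w
    · subst hv
      by_cases h1 : vx (off t) v
      · by_cases h2 : b < off t v
        · rw [if_pos ⟨by simp, h1, h2⟩, if_pos rfl, if_pos h1]
          rw [Finset.sum_eq_single b]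
          · simp
          · intro c _ hc
            rw [if_neg]
            intro h3
            apply hc
            simpa using h3.symm
          · intro h3
            exact absurd (Finset.mem_range.2 h2) h3
        · rw [if_neg (by tauto), if_pos h1]
          symm
          refine Finset.sum_eq_zero fun c hc => ?_
          rw [if_neg]
          intro h3
          apply h2
          have h4 : b = c := by simpa using h3
          rw [h4]
          exact Finset.mem_range.1 hc
      · rw [if_neg (by tauto), if_neg h1]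
    · rw [if_neg hv]
      have h5 : ∑ a ∈ Finset.range (off t w), (if v ++ [b] = w ++ [a] then (1 : ℂ) else 0) = 0 := by
        refine Finset.sum_eq_zero fun c _ => ?_
        rw [if_neg]
        intro h3
        apply hv
        exact (List.append_inj' h3 rfl).1
      rw [h5]
      simp

theorem adj_apply {Δ : ℕ} (t : Tr Δ) (f : H2) (w : List ℕ) :
    (ContinuousLinearMap.adjoint (Cc t) f) w
      = if vx (off t) w then ∑ a ∈ Finset.range (off t w), f (w ++ [a]) else 0 := by
  rw [← inner_ev, ContinuousLinearMap.adjoint_inner_right, Cc_ev]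
  split_ifs
  · rw [sum_inner]
    refine Finset.sum_congr rfl fun a _ => ?_
    rw [inner_ev]
  · rw [inner_zero_left]

theorem op : S_OP := by
  intro Δ
  refine ⟨2 * (Δ + 1 : ℝ), fun t => ⟨Cc t + ContinuousLinearMap.adjoint (Cc t), ?_, ?_, ?_⟩⟩
  · rw [← ContinuousLinearMap.star_eq_adjoint]
    exact IsSelfAdjoint.add_star_self (Cc t)
  · refine (norm_add_le _ _).trans ?_
    have h1 : ‖ContinuousLinearMap.adjoint (Cc t)‖ = ‖Cc t‖ :=
      LinearIsometryEquiv.norm_map _ _
    rw [h1]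
    have := Cc_norm t
    linarith
  · intro f w
    rw [_root_.add_apply, lp.coeFn_add, Pi.add_apply, adj_apply, Cc_apply]
    unfold cf
    by_cases h1 : vx (off t) w
    · by_cases h2 : w = []
      · simp [h1, h2]
      · simp [h1, h2]
    · simp [h1]

end Pool.Agent.Y331.UG
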