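import Pool.Agent.Y331.UG.OP

set_option autoImplicit false

open MeasureTheory Filter Topology
open scoped ENNReal BigOperators

namespace Pool.Agent.Y331.UG

open Pool.Agent.Y782.UG
open Classical

/-- walks of length `k` from `[]` to `w` -/
def WW (n : List ℕ → ℕ) (k : ℕ) (w : List ℕ) : Set (Fin (k + 1) → List ℕ) :=
  {f | f 0 = [] ∧ f (Fin.last k) = w ∧ (∀ i, vx n (f i)) ∧
    ∀ i : Fin k, (∃ a : ℕ, f i.succ = f i.castSucc ++ [a]) ∨
      (∃ a : ℕ, f i.castSucc = f i.succ ++ [a])}

/-- adjacent vertices -/
noncomputable def nb (n : List ℕ → ℕ) (w : List ℕ) : Finset (List ℕ) :=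
  (if w = [] then ∅ else {w.dropLast}) ∪ (Finset.range (n w)).image (fun a => w ++ [a])

theorem mem_nb (n : List ℕ → ℕ) (w v : List ℕ) :
    v ∈ nb n w ↔ (w ≠ [] ∧ v = w.dropLast) ∨ ∃ a < n w, v = w ++ [a] := by
  unfold nb
  rw [Finset.mem_union, Finset.mem_image]
  constructor
  · rintro (h | ⟨a, h1, h2⟩)
    · split_ifs at h with h3
      · simp at h
      · exact Or.inl ⟨h3, by simpa using h⟩
    · exact Or.inr ⟨a, Finset.mem_range.1 h1, h2.symm⟩
  · rintro (⟨h1, h2⟩ | ⟨a, h1, h2⟩)
    · left
      rw [if_neg h1]
      simpa using h2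
    · right
      exact ⟨a, Finset.mem_range.2 h1, h2.symm⟩

/-- append a last value -/
def sn {k : ℕ} (g : Fin (k + 1) → List ℕ) (w : List ℕ) : Fin (k + 1 + 1) → List ℕ :=
  Fin.snoc (α := fun _ => List ℕ) g w

theorem sn_last {k : ℕ} (g : Fin (k + 1) → List ℕ) (w : List ℕ) :
    sn g w (Fin.last (k + 1)) = w := by
  unfold sn
  exact Fin.snoc_last (α := fun _ => List ℕ) w g

theorem sn_cast {k : ℕ} (g : Fin (k + 1) → List ℕ) (w : List ℕ) (i : Fin (k + 1)) :
    sn g w i.castSucc = g i := by
  unfold sn
  exact Fin.snoc_castSucc (α := fun _ => List ℕ) w g i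

theorem vx_nil (n : List ℕ → ℕ) : vx n [] := by
  intro j hj
  simp at hj

theorem mem_WW_succ (n : List ℕ → ℕ) (k : ℕ) (w : List ℕ) (f : Fin (k + 1 + 1) → List ℕ) :
    f ∈ WW n (k + 1) w ↔ vx n w ∧ ∃ v ∈ nb n w, ∃ g ∈ WW n k v, sn g w = f := by
  constructor
  · rintro ⟨h0, h1, h2, h3⟩
    have hw : vx n w := by
      have := h2 (Fin.last (k + 1))
      rwa [h1] at this
    refine ⟨hw, f (Fin.last k).castSucc, ?_, fun i => f i.castSucc, ?_, ?_⟩
    · rw [mem_nb]
      have h4 := h3 (Fin.last k)
      rw [Fin.succ_last, h1] at h4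
      rcases h4 with ⟨a, h4⟩ | ⟨a, h4⟩
      · left
        rw [h4]
        exact ⟨by simp, by simp⟩
      · right
        refine ⟨a, ?_, h4⟩
        have h5 := h2 (Fin.last k).castSucc
        rw [h4, vx_snoc] at h5
        exact h5.2
    · refine ⟨?_, rfl, fun i => h2 _, fun i => ?_⟩
      · show f (Fin.castSucc 0) = []
        rw [Fin.castSucc_zero]
        exact h0
      · have h4 := h3 i.castSucc
        rw [Fin.succ_castSucc] at h4
        exact h4
    · ext1 i
      refine Fin.lastCases ?_ (fun j => ?_) i
      · rw [sn_last, h1]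
      · rw [sn_cast]
  · rintro ⟨hw, v, hv, g, ⟨h0, h1, h2, h3⟩, rfl⟩
    refine ⟨?_, sn_last g w, ?_, ?_⟩
    · have h4 := sn_cast g w 0
      rw [Fin.castSucc_zero] at h4
      rw [h4, h0]
    · intro i
      refine Fin.lastCases ?_ (fun j => ?_) i
      · rw [sn_last]
        exact hw
      · rw [sn_cast]
        exact h2 j
    · intro i
      refine Fin.lastCases ?_ (fun j => ?_) i
      · rw [Fin.succ_last, sn_last, sn_cast, h1]
        rcases (mem_nb n w v).1 hv with ⟨h4, h5⟩ | ⟨a, -, h4⟩
        · left
          refine ⟨w.getLast h4, ?_⟩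
          rw [h5]
          exact (List.dropLast_append_getLast h4).symm
        · right
          exact ⟨a, h4⟩
      · rw [Fin.succ_castSucc, sn_cast, sn_cast]
        exact h3 j

/-- the walks as a finset -/
noncomputable def fw (n : List ℕ → ℕ) : (k : ℕ) → List ℕ → Finset (Fin (k + 1) → List ℕ)
  | 0, w => if w = [] then {fun _ => []} else ∅
  | k + 1, w => if vx n w then (nb n w).biUnion (fun v => (fw n k v).image (fun g => sn g w))
      else ∅

theorem coe_fw (n : List ℕ → ℕ) (k : ℕ) : ∀ (w : List ℕ), (fw n k w : Set _) = WW n k w := by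
  induction k with
  | zero =>
    intro w
    ext f
    rw [Finset.mem_coe]
    unfold fw WW
    constructor
    · intro h
      split_ifs at h with h1
      · rw [Finset.mem_singleton] at h
        subst h1
        subst h
        exact ⟨rfl, rfl, fun i => vx_nil n, fun i => i.elim0⟩
      · simp at h
    · rintro ⟨h1, h2, -, -⟩
      have h3 : w = [] := by
        rw [← h2]
        exact h1
      rw [if_pos h3, Finset.mem_singleton]
      ext1 i
      have : i = 0 := Fin.ext (by have := i.isLt; show (i : ℕ) = 0; omega)
      rw [this, h1]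
  | succ k ih =>
    intro w
    ext f
    rw [Finset.mem_coe, mem_WW_succ]
    unfold fw
    constructor
    · intro h
      split_ifs at h with h1
      · refine ⟨h1, ?_⟩
        obtain ⟨v, hv, hf⟩ := Finset.mem_biUnion.1 h
        obtain ⟨g, hg, hf⟩ := Finset.mem_image.1 hf
        refine ⟨v, hv, g, ?_, hf⟩
        rw [← ih v]
        exact Finset.mem_coe.2 hg
      · simp at h
    · rintro ⟨h1, v, hv, g, hg, hf⟩
      rw [if_pos h1, Finset.mem_biUnion]
      refine ⟨v, hv, Finset.mem_image.2 ⟨g, ?_, hf⟩⟩
      rw [← ih v] at hg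
      exact Finset.mem_coe.1 hg

theorem sn_inj {k : ℕ} (w : List ℕ) :
    Function.Injective (fun g : Fin (k + 1) → List ℕ => sn g w) := by
  intro g g' h
  ext1 i
  have h1 := congrFun h i.castSucc
  simp only at h1
  rwa [sn_cast, sn_cast] at h1

theorem card_fw (n : List ℕ → ℕ) (k : ℕ) : ∀ (w : List ℕ), (fw n k w).card = wn n k w := by
  induction k with
  | zero =>
    intro w
    unfold fw wn
    split_ifs <;> simp
  | succ k ih =>
    intro w
    unfold fw wn
    by_cases h1 : vx n w
    · rw [if_pos h1, if_pos h1, Finset.card_biUnion]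
      · have h2 : ∑ u ∈ nb n w, ((fw n k u).image (fun g => sn g w)).card
            = ∑ u ∈ nb n w, wn n k u := by
          refine Finset.sum_congr rfl fun u _ => ?_
          rw [Finset.card_image_of_injective _ (sn_inj w), ih u]
        rw [h2]
        unfold nb
        rw [Finset.sum_union]
        · congr 1
          · split_ifs
            · simp
            · simp
          · rw [Finset.sum_image]
            intro a _ b _ hab
            simpa using hab
        · rw [Finset.disjoint_left]
          intro u hu hu'
          obtain ⟨a, -, ha⟩ := Finset.mem_image.1 hu'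
          split_ifs at hu with h3
          · simp at hu
          · rw [Finset.mem_singleton] at hu
            rw [← ha] at hu
            have h4 := congrArg List.length hu
            rw [List.length_append, List.length_dropLast] at h4
            simp at h4
            omega
      · intro u _ v _ huv
        rw [Function.onFun, Finset.disjoint_left]
        intro f hf hf'
        obtain ⟨g, hg, hg'⟩ := Finset.mem_image.1 hf
        obtain ⟨g2, hg2, hg2'⟩ := Finset.mem_image.1 hf'
        have h3 : g = g2 := sn_inj w (by simp only; rw [hg', hg2'])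
        subst h3
        have h4 : g ∈ WW n k u := by
          rw [← coe_fw n k u]
          exact Finset.mem_coe.2 hg
        have h5 : g ∈ WW n k v := by
          rw [← coe_fw n k v]
          exact Finset.mem_coe.2 hg2
        exact huv (h4.2.1.symm.trans h5.2.1)
    · rw [if_neg h1, if_neg h1, Finset.card_empty]

theorem walk : S_WALK := by
  intro n k
  have h1 : Set.ncard (WW n k []) = wn n k [] := by
    rw [← coe_fw n k [], Set.ncard_coe_finset, card_fw]
  exact h1

theorem off_meas {Δ : ℕ} (w : List ℕ) : Measurable (fun t : Tr Δ => off t w) := by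
  unfold off
  exact (measurable_of_countable (fun k : Fin (Δ + 1) => (k : ℕ))).comp (measurable_pi_apply w)

theorem vx_meas {Δ : ℕ} (w : List ℕ) : MeasurableSet {t : Tr Δ | vx (off t) w} := by
  unfold vx
  simp only [Set.ofPred_forall]
  exact MeasurableSet.iInter fun j => MeasurableSet.iInter fun _ =>
    measurableSet_lt measurable_const (off_meas (w.take j))

theorem mw : S_MW := by
  intro Δ k
  induction k with
  | zero =>
    intro w
    unfold wn
    exact measurable_const
  | succ k ih =>
    intro w
    unfold wn
    refine Measurable.ite (vx_meas w) ?_ measurable_const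
    refine Measurable.add ?_ ?_
    · split_ifs
      · exact measurable_const
      · exact ih _
    · have h1 : (fun t : Tr Δ => ∑ a ∈ Finset.range (off t w), wn (off t) k (w ++ [a]))
          = fun t : Tr Δ => ∑ a ∈ Finset.range (Δ + 1),
            (if a < off t w then wn (off t) k (w ++ [a]) else 0) := by
        funext t
        rw [← Finset.sum_filter]
        refine Finset.sum_congr ?_ fun _ _ => rfl
        ext a
        have h2 : off t w < Δ + 1 := (t w).isLt
        rw [Finset.mem_filter, Finset.mem_range, Finset.mem_range]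
        omega
      rw [h1]
      refine Finset.measurable_sum _ fun a _ => ?_
      exact Measurable.ite (measurableSet_lt measurable_const (off_meas w)) (ih _)
        measurable_const

end Pool.Agent.Y331.UG
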